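import Pool.Agent.H64.CJ.Stm

/-!
# CJ-COEF (helper73)
-/

set_option autoImplicit false

open Metric Set Filter Topology MeasureTheory

namespace Pool.Agent.H64.CJ

theorem coef : S_COEF := by
  intro ψ A hA hψ hint n hn R hR
  have hopen : IsOpen {z : ℂ | 1 < ‖z‖} := isOpen_lt continuous_const continuous_norm
  have hdiff : ∀ z : ℂ, 1 < ‖z‖ → DifferentiableAt ℂ ψ z := fun z hz =>
    hψ.differentiableAt (hopen.mem_nhds hz)
  -- the integral as a circle integral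
  have hcm : ∀ (ρ θ : ℝ), circleMap 0 ρ θ = (ρ : ℂ) * Complex.exp ((θ : ℂ) * Complex.I) := by
    intro ρ θ; simp [circleMap]
  have hnorm : ∀ ρ : ℝ, 1 < ρ → ∀ θ : ℝ, ‖circleMap 0 ρ θ‖ = ρ := by
    intro ρ hρ θ
    rw [norm_circleMap_zero, abs_of_pos (by linarith)]
  have hI : ∀ ρ : ℝ, 1 < ρ → (∮ z in C(0, ρ), ψ z * z ^ (n - 1)) =
      Complex.I * ∫ θ in (0 : ℝ)..(2 * Real.pi), ψ ((ρ : ℂ) * Complex.exp ((θ : ℂ) * Complex.I)) *
        ((ρ : ℂ) * Complex.exp ((θ : ℂ) * Complex.I)) ^ n := by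
    intro ρ hρ
    rw [circleIntegral, ← intervalIntegral.integral_const_mul]
    apply intervalIntegral.integral_congr
    intro θ _
    simp only [deriv_circleMap, smul_eq_mul, ← hcm]
    obtain ⟨m, rfl⟩ : ∃ m, n = m + 1 := ⟨n - 1, by omega⟩
    rw [Nat.add_sub_cancel, pow_succ]
    ring
  -- independence of the radius
  have hind : ∀ ρ ρ' : ℝ, 1 < ρ → ρ ≤ ρ' → (∮ z in C(0, ρ'), ψ z * z ^ (n - 1)) =
      ∮ z in C(0, ρ), ψ z * z ^ (n - 1) := by
    intro ρ ρ' h1 h2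
    apply Complex.circleIntegral_eq_of_differentiable_on_annulus_off_countable (by linarith) h2
      Set.countable_empty
    · intro z hz
      have hz1 : 1 < ‖z‖ := by
        have h3 := hz.2
        simp only [mem_ball, dist_zero_right, not_lt] at h3
        linarith
      exact ((hdiff z hz1).continuousAt.mul (continuousAt_id.pow _)).continuousWithinAt
    · intro z hz
      have hz1 : 1 < ‖z‖ := by
        have h3 := hz.1.2
        simp only [mem_closedBall, dist_zero_right, not_le] at h3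
        linarith
      exact (hdiff z hz1).mul (differentiableAt_id.pow _)
  have hind2 : ∀ ρ ρ' : ℝ, 1 < ρ → 1 < ρ' → (∮ z in C(0, ρ'), ψ z * z ^ (n - 1)) =
      ∮ z in C(0, ρ), ψ z * z ^ (n - 1) := by
    intro ρ ρ' h1 h2
    rcases le_total ρ ρ' with h | h
    · exact hind ρ ρ' h1 h
    · exact (hind ρ' ρ h2 h).symm
  -- integration by parts
  have hψ' : DifferentiableOn ℂ (deriv ψ) {z : ℂ | 1 < ‖z‖} := hψ.deriv hopen
  have hparts : ∀ ρ : ℝ, 1 < ρ → (n : ℂ) * (∮ z in C(0, ρ), ψ z * z ^ (n - 1)) =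
      - ∮ z in C(0, ρ), deriv ψ z * z ^ n := by
    intro ρ hρ
    have h1 : (∮ z in C(0, ρ), (deriv ψ z * z ^ n + ψ z * ((n : ℂ) * z ^ (n - 1)))) = 0 := by
      apply circleIntegral.integral_eq_zero_of_hasDerivWithinAt (f := fun z => ψ z * z ^ n) (by linarith)
      intro z hz
      have hz1 : 1 < ‖z‖ := by
        rw [mem_sphere_iff_norm, sub_zero] at hz
        linarith
      exact ((hdiff z hz1).hasDerivAt.mul (hasDerivAt_pow n z)).hasDerivWithinAt
    have hs : ∀ z ∈ sphere (0 : ℂ) ρ, 1 < ‖z‖ := by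
      intro z hz
      rw [mem_sphere_iff_norm, sub_zero] at hz
      linarith
    have c1 : CircleIntegrable (fun z => deriv ψ z * z ^ n) 0 ρ := by
      apply ContinuousOn.circleIntegrable (by linarith)
      intro z hz
      exact (((hψ' z (hs z hz)).differentiableAt (hopen.mem_nhds (hs z hz))).continuousAt.mul
        (continuousAt_id.pow _)).continuousWithinAt
    have c2 : CircleIntegrable (fun z => ψ z * ((n : ℂ) * z ^ (n - 1))) 0 ρ := by
      apply ContinuousOn.circleIntegrable (by linarith)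
      intro z hz
      exact ((hdiff z (hs z hz)).continuousAt.mul
        (continuousAt_const.mul (continuousAt_id.pow _))).continuousWithinAt
    rw [circleIntegral.integral_add c1 c2] at h1
    have h2 : (∮ z in C(0, ρ), ψ z * ((n : ℂ) * z ^ (n - 1))) =
        (n : ℂ) * ∮ z in C(0, ρ), ψ z * z ^ (n - 1) := by
      rw [← circleIntegral.integral_const_mul]
      congr 1
      funext z
      ring
    rw [h2] at h1
    linear_combination h1
  -- the bound
  have hbound : ∀ ρ : ℝ, 1 < ρ → ‖∮ z in C(0, ρ), deriv ψ z * z ^ n‖ ≤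
      ρ ^ (n + 1) * (A * (ρ ^ 2 / (ρ ^ 2 - 1)) ^ (21 / 50 : ℝ)) := by
    intro ρ hρ
    rw [circleIntegral]
    refine (intervalIntegral.norm_integral_le_integral_norm (by positivity)).trans ?_
    have e : ∀ θ : ℝ, ‖deriv (circleMap 0 ρ) θ • (deriv ψ (circleMap 0 ρ θ) * circleMap 0 ρ θ ^ n)‖ =
        ρ ^ (n + 1) * ‖deriv ψ ((ρ : ℂ) * Complex.exp ((θ : ℂ) * Complex.I))‖ := by
      intro θ
      rw [deriv_circleMap, norm_smul, norm_mul, norm_mul, norm_pow, hnorm ρ hρ, Complex.norm_I, hcm]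
      ring
    simp only [e]
    rw [intervalIntegral.integral_const_mul]
    exact mul_le_mul_of_nonneg_left (hint ρ hρ) (by positivity)
  -- conclusion
  have hn0 : (0 : ℝ) < n := by exact_mod_cast hn
  have hn1 : (1 : ℝ) ≤ n := by exact_mod_cast hn
  set ρ : ℝ := Real.sqrt (1 + 1 / n) with hρdef
  have hρ2 : ρ ^ 2 = 1 + 1 / n := Real.sq_sqrt (by positivity)
  have hρ0 : 0 ≤ ρ := Real.sqrt_nonneg _
  have hρ1 : 1 < ρ := by
    have h1 : 0 < 1 / (n : ℝ) := by positivity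
    nlinarith
  have hq : ρ ^ 2 / (ρ ^ 2 - 1) = n + 1 := by
    rw [hρ2]; field_simp; ring
  have hpow : ρ ^ (n + 1) ≤ 3 := by
    have h1 : ρ ^ (n + 1) ≤ Real.exp (1 / 2) ^ (1 : ℝ) * Real.sqrt 2 := by
      have h2 : (ρ ^ (n + 1)) ^ 2 ≤ (Real.exp (1 / 2) * Real.sqrt 2) ^ 2 := by
        rw [mul_pow, Real.sq_sqrt (by norm_num), ← Real.exp_nat_mul, ← pow_mul, mul_comm (n + 1) 2, pow_mul, hρ2,
          pow_succ]
        have h3 : (1 + 1 / (n : ℝ)) ^ n ≤ Real.exp 1 := by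
          have h4 : 1 + 1 / (n : ℝ) ≤ Real.exp (1 / n) := by
            have := Real.add_one_le_exp (1 / (n : ℝ)); linarith
          calc (1 + 1 / (n : ℝ)) ^ n ≤ Real.exp (1 / n) ^ n := pow_le_pow_left₀ (by positivity) h4 n
            _ = Real.exp 1 := by
              rw [← Real.exp_nat_mul]; congr 1; field_simp
        have h5 : 1 + 1 / (n : ℝ) ≤ 2 := by
          have : 1 / (n : ℝ) ≤ 1 := by
            rw [div_le_one hn0]; exact hn1
          linarith
        have h6 : Real.exp (((2 : ℕ) : ℝ) * (1 / 2)) = Real.exp 1 := by norm_num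
        rw [h6]
        exact mul_le_mul h3 h5 (by positivity) (Real.exp_pos _).le
      rw [Real.rpow_one]
      exact le_of_sq_le_sq h2 (by positivity)
    rw [Real.rpow_one] at h1
    have h7 : Real.exp (1 / 2) ≤ 1.66 := by
      have h8 : Real.exp (1 / 2) ^ 2 ≤ 1.66 ^ 2 := by
        rw [← Real.exp_nat_mul]
        have h6 : Real.exp (((2 : ℕ) : ℝ) * (1 / 2)) = Real.exp 1 := by norm_num
        rw [h6]
        have := Real.exp_one_lt_d9
        norm_num at this ⊢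
        linarith
      exact le_of_sq_le_sq h8 (by norm_num)
    have h9 : Real.sqrt 2 ≤ 1.42 := by
      rw [Real.sqrt_le_left (by norm_num)]; norm_num
    have h10 : Real.exp (1 / 2) * Real.sqrt 2 ≤ 1.66 * 1.42 :=
      mul_le_mul h7 h9 (Real.sqrt_nonneg _) (by norm_num)
    norm_num at h10
    linarith
  have hr : ((n : ℝ) + 1) ^ (21 / 50 : ℝ) ≤ 2 * (n : ℝ) ^ (21 / 50 : ℝ) := by
    calc ((n : ℝ) + 1) ^ (21 / 50 : ℝ) ≤ (2 * (n : ℝ)) ^ (21 / 50 : ℝ) := by
          apply Real.rpow_le_rpow (by positivity) (by linarith) (by norm_num)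
      _ = (2 : ℝ) ^ (21 / 50 : ℝ) * (n : ℝ) ^ (21 / 50 : ℝ) := Real.mul_rpow (by norm_num) hn0.le
      _ ≤ 2 * (n : ℝ) ^ (21 / 50 : ℝ) := by
          apply mul_le_mul_of_nonneg_right _ (by positivity)
          calc (2 : ℝ) ^ (21 / 50 : ℝ) ≤ (2 : ℝ) ^ (1 : ℝ) :=
                Real.rpow_le_rpow_of_exponent_le (by norm_num) (by norm_num)
            _ = 2 := Real.rpow_one 2
  have key : ‖∫ θ in (0 : ℝ)..(2 * Real.pi), ψ ((R : ℂ) * Complex.exp ((θ : ℂ) * Complex.I)) *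
      ((R : ℂ) * Complex.exp ((θ : ℂ) * Complex.I)) ^ n‖ * n ≤ 6 * A * (n : ℝ) ^ (21 / 50 : ℝ) := by
    have h1 : ‖(n : ℂ) * (∮ z in C(0, ρ), ψ z * z ^ (n - 1))‖ = ‖∮ z in C(0, ρ), deriv ψ z * z ^ n‖ := by
      rw [hparts ρ hρ1, norm_neg]
    rw [hind2 R ρ hR hρ1, hI R hR, norm_mul, norm_mul, Complex.norm_I, one_mul, Complex.norm_natCast] at h1
    rw [mul_comm, h1]
    refine (hbound ρ hρ1).trans ?_
    rw [hq]
    calc ρ ^ (n + 1) * (A * ((n : ℝ) + 1) ^ (21 / 50 : ℝ)) ≤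
          3 * (A * (2 * (n : ℝ) ^ (21 / 50 : ℝ))) := by
          apply mul_le_mul hpow _ (by positivity) (by norm_num)
          exact mul_le_mul_of_nonneg_left hr hA
      _ = 6 * A * (n : ℝ) ^ (21 / 50 : ℝ) := by ring
  have hsplit : (n : ℝ) ^ (21 / 50 : ℝ) = (n : ℝ) ^ (-(29 / 50) : ℝ) * n := by
    have : (n : ℝ) ^ (-(29 / 50) : ℝ) * n = (n : ℝ) ^ (-(29 / 50) : ℝ) * (n : ℝ) ^ (1 : ℝ) := by
      rw [Real.rpow_one]
    rw [this, ← Real.rpow_add hn0]
    norm_num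
  rw [hsplit] at key
  have h1 : ‖∫ θ in (0 : ℝ)..(2 * Real.pi), ψ ((R : ℂ) * Complex.exp ((θ : ℂ) * Complex.I)) *
      ((R : ℂ) * Complex.exp ((θ : ℂ) * Complex.I)) ^ n‖ ≤ 6 * A * (n : ℝ) ^ (-(29 / 50) : ℝ) := by
    have h2 : ‖∫ θ in (0 : ℝ)..(2 * Real.pi), ψ ((R : ℂ) * Complex.exp ((θ : ℂ) * Complex.I)) *
      ((R : ℂ) * Complex.exp ((θ : ℂ) * Complex.I)) ^ n‖ * n ≤ (6 * A * (n : ℝ) ^ (-(29 / 50) : ℝ)) * n := by
      linarith
    exact le_of_mul_le_mul_right h2 hn0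
  have h3 : 0 ≤ A * (n : ℝ) ^ (-(29 / 50) : ℝ) := by positivity
  linarith

end Pool.Agent.H64.CJ
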