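import Pool.Agent.H64.CJ.Stm

set_option autoImplicit false

/-! # CJ-D1 (helper96): the difference of the integrals with `(1 + x)⁻¹` and `(1 + x)⁻²` -/

namespace Pool.Agent.H64.CJ

open Metric Set Filter Topology MeasureTheory
open scoped ENNReal
open Pool.Agent.H64.CX

/-- the antiderivative -/
noncomputable def D1.G (x : ℝ) : ℝ :=
  -(1 + x)⁻¹ - (1 + 2 * x)⁻¹ / 2 - 2 * Real.log (2 - (1 + x)⁻¹)

/-- the minorant -/
noncomputable def D1.g (x : ℝ) : ℝ := ((1 + x)⁻¹ - (1 + 2 * x)⁻¹) ^ 2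

lemma D1.pos (x : ℝ) (hx : 0 ≤ x) : 0 < 2 - (1 + x)⁻¹ := by
  have h1 : (1 + x)⁻¹ ≤ 1 := inv_le_one_of_one_le₀ (by linarith)
  linarith

lemma D1.deriv (x : ℝ) (hx : 0 ≤ x) : HasDerivAt D1.G (D1.g x) x := by
  have h1 : (1 + x) ≠ 0 := by positivity
  have h2 : (1 + 2 * x) ≠ 0 := by positivity
  have d1 : HasDerivAt (fun x : ℝ => (1 + x)⁻¹) (-1 / (1 + x) ^ 2) x := by
    exact ((hasDerivAt_id x).const_add 1).fun_inv h1
  have d2 : HasDerivAt (fun x : ℝ => (1 + 2 * x)⁻¹) (-(2 * 1) / (1 + 2 * x) ^ 2) x := by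
    exact (((hasDerivAt_id x).const_mul 2).const_add 1).fun_inv h2
  have d3 : HasDerivAt (fun x : ℝ => Real.log (2 - (1 + x)⁻¹)) (-(-1 / (1 + x) ^ 2) / (2 - (1 + x)⁻¹)) x :=
    (d1.const_sub 2).log (D1.pos x hx).ne'
  have h3 : (2 - (1 + x)⁻¹) ≠ 0 := (D1.pos x hx).ne'
  have h4 : (2 - (1 + x)⁻¹) = (1 + 2 * x) / (1 + x) := by
    field_simp
    ring
  refine ((d1.fun_neg.fun_sub (d2.div_const 2)).fun_sub (d3.const_mul 2)).congr_deriv ?_
  unfold D1.g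
  rw [h4]
  field_simp
  ring

lemma D1.lim : Tendsto D1.G atTop (𝓝 (-0 - 0 / 2 - 2 * Real.log (2 - 0))) := by
  have t1 : Tendsto (fun x : ℝ => (1 + x)⁻¹) atTop (𝓝 0) :=
    tendsto_inv_atTop_zero.comp (tendsto_atTop_add_const_left _ _ tendsto_id)
  have t2 : Tendsto (fun x : ℝ => (1 + 2 * x)⁻¹) atTop (𝓝 0) :=
    tendsto_inv_atTop_zero.comp (tendsto_atTop_add_const_left _ _
      (tendsto_id.const_mul_atTop (by norm_num)))
  exact (t1.neg.sub (t2.div_const 2)).sub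
    (((Real.continuousAt_log (by norm_num)).tendsto.comp (t1.const_sub 2)).const_mul 2)

lemma D1.int : IntegrableOn D1.g (Ioi 0) volume ∧ ∫ x in Ioi (0 : ℝ), D1.g x = 3 / 2 - 2 * Real.log 2 := by
  have hc : ContinuousWithinAt D1.G (Ici 0) 0 := (D1.deriv 0 le_rfl).continuousAt.continuousWithinAt
  constructor
  · exact integrableOn_Ioi_deriv_of_nonneg hc (fun x hx => D1.deriv x (le_of_lt hx))
      (fun x _ => sq_nonneg _) D1.lim
  · rw [integral_Ioi_of_hasDerivAt_of_nonneg hc (fun x hx => D1.deriv x (le_of_lt hx))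
      (fun x _ => sq_nonneg _) D1.lim]
    unfold D1.G
    norm_num
    ring

theorem d1 : S_D1 := by
  intro s h0 h1
  have hlow : ENNReal.ofReal (181 / 100) ≤ ∫⁻ x in Ioi (0 : ℝ), ENNReal.ofReal (16 * D1.g x) := by
    rw [← ofReal_integral_eq_lintegral_ofReal (D1.int.1.const_mul 16)
      (Filter.Eventually.of_forall fun x => mul_nonneg (by norm_num) (sq_nonneg _)),
      integral_const_mul, D1.int.2]
    refine ENNReal.ofReal_le_ofReal ?_
    have := Real.log_two_lt_d9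
    linarith
  have hm : Measurable fun x : ℝ => ENNReal.ofReal (16 * D1.g x) := by
    unfold D1.g
    fun_prop
  refine (add_le_add le_rfl hlow).trans ?_
  rw [← lintegral_add_right _ hm]
  refine setLIntegral_mono' measurableSet_Ioi fun x hx => ?_
  have hx0 : 0 < x := hx
  have a1 : 0 < s + x := by linarith
  have a2 : 0 < 1 + x - s := by linarith
  have a3 : 0 < 1 + x := by linarith
  have a4 : 0 < 1 + 2 * x := by linarith
  have hg0 : 0 ≤ 16 * D1.g x := mul_nonneg (by norm_num) (sq_nonneg _)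
  rw [← ENNReal.ofReal_add (by positivity) hg0]
  refine ENNReal.ofReal_le_ofReal ?_
  have e1 : (1 + x) ^ (-2 : ℝ) = ((1 + x) ^ 2)⁻¹ := by
    rw [Real.rpow_neg a3.le]
    norm_num
  have e2 : (1 + x) ^ (-1 : ℝ) = (1 + x)⁻¹ := Real.rpow_neg_one _
  rw [e1, e2]
  set K : ℝ := 1 / (s + x) + 1 / (1 + x - s) with hK
  have hK4 : 4 / (1 + 2 * x) ≤ K := by
    rw [hK, div_add_div _ _ a1.ne' a2.ne', div_le_div_iff₀ a4 (mul_pos a1 a2)]
    nlinarith [sq_nonneg (s + x - (1 + x - s))]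
  have hK2 : (4 / (1 + 2 * x)) ^ 2 ≤ K ^ 2 := pow_le_pow_left₀ (by positivity) hK4 2
  have e3 : 16 * D1.g x = x ^ 2 / (1 + x) ^ 2 * (4 / (1 + 2 * x)) ^ 2 := by
    unfold D1.g
    field_simp
    ring
  have e4 : x * (1 + x)⁻¹ * K ^ 2 = x * ((1 + x) ^ 2)⁻¹ * K ^ 2 + x ^ 2 / (1 + x) ^ 2 * K ^ 2 := by
    field_simp
  rw [e3, e4]
  have := mul_le_mul_of_nonneg_left hK2 (show 0 ≤ x ^ 2 / (1 + x) ^ 2 by positivity)
  linarith

end Pool.Agent.H64.CJ
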