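import Pool.Agent.H64.CJ.Stm

set_option autoImplicit false

/-! # CJ-DCO: the Taylor coefficients from the means of the derivative -/

namespace Pool.Agent.H64.CJ

open Metric Set Filter Topology MeasureTheory
open scoped ENNReal
open Pool.Agent.H64.CX

theorem dco_bd (g : ℂ → ℂ) (m : ℕ) (r : ℝ) (hr : 0 < r) (hr1 : r < 1)
    (hg : DifferentiableOn ℂ g (ball 0 1)) :
    ‖iteratedDeriv m g 0‖ ≤ m.factorial * (((2 * Real.pi)⁻¹ *
      ∫ θ in (0 : ℝ)..(2 * Real.pi), ‖g (circleMap 0 r θ)‖) * |r|⁻¹ ^ m) := by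
  have h1 : DifferentiableOn ℂ g (closedBall 0 (⟨r, hr.le⟩ : NNReal)) :=
    hg.mono (closedBall_subset_ball hr1)
  have h2 := h1.hasFPowerSeriesOnBall (show (0 : NNReal) < ⟨r, hr.le⟩ from hr)
  have h3 := h2.factorial_smul (1 : ℂ) m
  rw [iteratedDeriv_eq_iteratedFDeriv, ← h3]
  have h4 := norm_cauchyPowerSeries_le g 0 r m
  have h5 := (cauchyPowerSeries g 0 r m).le_opNorm (fun _ => (1 : ℂ))
  simp only [norm_one, Finset.prod_const_one, mul_one] at h5
  rw [nsmul_eq_mul, norm_mul, Complex.norm_natCast]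
  exact mul_le_mul_of_nonneg_left (h5.trans h4) (Nat.cast_nonneg _)

theorem dco : S_DCO := by
  intro f A hA hf hm n hn
  have hg : DifferentiableOn ℂ (deriv f) (ball 0 1) := hf.deriv isOpen_ball
  obtain ⟨m, rfl⟩ : ∃ m, n = m + 1 := ⟨n - 1, by omega⟩
  have hn0 : (0 : ℝ) < ((m + 1 : ℕ) : ℝ) := by exact_mod_cast Nat.succ_pos m
  set N : ℝ := ((m + 1 : ℕ) : ℝ) with hN
  have hN1 : 1 ≤ N := by rw [hN]; exact_mod_cast hn
  set r : ℝ := N / (N + 1) with hr
  have hr0 : 0 < r := by positivity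
  have hr1 : r < 1 := by rw [hr, div_lt_one (by linarith)]; linarith
  have h1r : 1 - r = 1 / (N + 1) := by rw [hr]; field_simp; ring
  have h1 := dco_bd (deriv f) m r hr0 hr1 hg
  have h2 := hm r hr0 hr1
  rw [iteratedDeriv_succ', norm_div, Complex.norm_natCast, Nat.factorial_succ]
  have hfac : (0 : ℝ) < (m.factorial : ℝ) := by exact_mod_cast m.factorial_pos
  -- the powers
  have h3 : |r|⁻¹ ^ m ≤ 3 := by
    rw [abs_of_pos hr0]
    have e1 : r⁻¹ = 1 + 1 / N := by rw [hr, inv_div]; field_simp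
    rw [e1]
    have e2 : (1 + 1 / N) ^ m ≤ Real.exp (1 / N * m) := by
      rw [Real.exp_mul, Real.rpow_natCast]
      refine pow_le_pow_left₀ (by positivity) ?_ m
      linarith [Real.add_one_le_exp (1 / N)]
    have e3 : 1 / N * m ≤ 1 := by
      rw [one_div, inv_mul_le_iff₀ hn0, mul_one, hN]
      push_cast
      linarith
    refine e2.trans ((Real.exp_le_exp.2 e3).trans ?_)
    linarith [Real.exp_one_lt_d9]
  have h4 : (1 - r) ^ (-(21 / 50) : ℝ) ≤ 2 * N ^ (21 / 50 : ℝ) := by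
    rw [h1r, one_div, Real.inv_rpow (by linarith), Real.rpow_neg (by linarith), inv_inv]
    have e1 : (N + 1) ^ (21 / 50 : ℝ) ≤ (2 * N) ^ (21 / 50 : ℝ) :=
      Real.rpow_le_rpow (by linarith) (by linarith) (by norm_num)
    refine e1.trans ?_
    rw [Real.mul_rpow (by norm_num) hn0.le]
    refine mul_le_mul_of_nonneg_right ?_ (Real.rpow_nonneg hn0.le _)
    calc (2 : ℝ) ^ (21 / 50 : ℝ) ≤ 2 ^ (1 : ℝ) := Real.rpow_le_rpow_of_exponent_le (by norm_num) (by norm_num)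
      _ = 2 := Real.rpow_one 2
  have hint : 0 ≤ ∫ θ in (0 : ℝ)..(2 * Real.pi), ‖deriv f (circleMap 0 r θ)‖ :=
    intervalIntegral.integral_nonneg (by positivity) fun θ _ => norm_nonneg _
  have h5 : (2 * Real.pi)⁻¹ ≤ 1 := by
    refine inv_le_one_of_one_le₀ ?_
    linarith [Real.pi_gt_three]
  have h6 : ∫ θ in (0 : ℝ)..(2 * Real.pi), ‖deriv f (circleMap 0 r θ)‖ ≤ A * (2 * N ^ (21 / 50 : ℝ)) :=
    h2.trans (mul_le_mul_of_nonneg_left h4 hA)
  have h7 : (2 * Real.pi)⁻¹ * (∫ θ in (0 : ℝ)..(2 * Real.pi), ‖deriv f (circleMap 0 r θ)‖) ≤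
      A * (2 * N ^ (21 / 50 : ℝ)) := by
    calc _ ≤ 1 * (∫ θ in (0 : ℝ)..(2 * Real.pi), ‖deriv f (circleMap 0 r θ)‖) :=
          mul_le_mul_of_nonneg_right h5 hint
      _ ≤ _ := by rw [one_mul]; exact h6
  have hP : 0 ≤ A * (2 * N ^ (21 / 50 : ℝ)) := by positivity
  have h8 : ‖iteratedDeriv m (deriv f) 0‖ ≤ m.factorial * (A * (2 * N ^ (21 / 50 : ℝ)) * 3) :=
    h1.trans (mul_le_mul_of_nonneg_left (mul_le_mul h7 h3 (by positivity) hP) hfac.le)
  rw [div_le_iff₀ (by exact_mod_cast Nat.mul_pos (Nat.succ_pos m) m.factorial_pos)]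
  refine h8.trans ?_
  have h9 : N ^ (-(29 / 50) : ℝ) * N = N ^ (21 / 50 : ℝ) := by
    rw [← Real.rpow_add_one hn0.ne']
    norm_num
  have h10 : (((m + 1) * m.factorial : ℕ) : ℝ) = N * m.factorial := by
    rw [hN]; push_cast; ring
  rw [h10]
  have h11 : 8 * A * N ^ (-(29 / 50) : ℝ) * (N * (m.factorial : ℝ)) =
      8 * (A * ((N ^ (-(29 / 50) : ℝ) * N) * m.factorial)) := by ring
  rw [h11, h9]
  have h12 : 0 ≤ A * (N ^ (21 / 50 : ℝ) * m.factorial) := by positivity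
  nlinarith

end Pool.Agent.H64.CJ
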