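import Pool.Agent.H64.CJ.Stm
import Pool.Agent.H64.CX.UBN

set_option autoImplicit false

/-! # CJ-DDR (helper87): the limit density for `α = -1/2` -/

namespace Pool.Agent.H64.CJ

open Metric Set Filter Topology MeasureTheory
open scoped ENNReal
open Pool.Agent.H64.CX

theorem ddr_gamma : 1 / (‖Complex.Gamma (-(1 / 2))‖ ^ 2 * ‖Complex.Gamma (1 - -(1 / 2))‖ ^ 2) =
    1 / Real.pi ^ 2 := by
  rw [ubn_sin (-(1 / 2))]
  have h : Complex.sin (Real.pi * -(1 / 2)) = -1 := by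
    have : (Real.pi : ℂ) * -(1 / 2) = -(Real.pi / 2) := by ring
    rw [this, Complex.sin_neg, Complex.sin_pi_div_two]
  rw [h, norm_neg, norm_one, one_pow]

theorem ddr : S_DDR := by
  intro x s hx hs0 hs1
  have hx1 : 0 < 1 + x := by linarith
  have hre : (-(1 / 2) : ℂ).re = -(1 / 2) := by norm_num
  have h1 : (1 : ℂ) - (-(1 / 2)) = ((3 / 2 : ℝ) : ℂ) := by push_cast; ring
  have hG := ddr_gamma
  unfold DD
  have h2 : ‖((1 + x : ℝ) : ℂ) ^ (1 - (-(1 / 2)) : ℂ) - (x : ℂ) ^ (1 - (-(1 / 2)) : ℂ)‖ ^ 2 =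
      ((1 + x) ^ (3 / 2 : ℝ) - x ^ (3 / 2 : ℝ)) ^ 2 := by
    rw [h1, ← Complex.ofReal_cpow hx1.le, ← Complex.ofReal_cpow hx.le, ← Complex.ofReal_sub,
      Complex.norm_real, Real.norm_eq_abs, sq_abs]
  rw [h2, hre]
  rw [show -((21 : ℝ) / 50 + 2 * -(1 / 2)) = 29 / 50 by norm_num,
    show (21 : ℝ) / 50 + 2 * -(1 / 2) = -(29 / 50) by norm_num,
    show (1 : ℝ) - 2 * -(1 / 2) = 2 by norm_num, ← hG]
  simp only [div_eq_mul_inv, mul_inv, one_mul]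
  ring

end Pool.Agent.H64.CJ
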