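import Pool.Agent.H64.CJ.Stm

set_option autoImplicit false

/-! # CJ-FIN (helper87): the limit is less than `1` (Tonelli) -/

namespace Pool.Agent.H64.CJ

open Metric Set Filter Topology MeasureTheory
open scoped ENNReal
open Pool.Agent.H64.CX

theorem fin : S_FIN := by
  intro hD hI hO
  set c : ℝ := 1 / Real.pi ^ 2 with hc
  have hc0 : 0 ≤ c := by positivity
  set k : ℝ → ℝ → ℝ := fun x s => x * (1 + x) ^ (29 / 50 : ℝ) /
    ((1 + x) ^ (3 / 2 : ℝ) - x ^ (3 / 2 : ℝ)) ^ 2 * (1 / (s + x) + 1 / (1 + x - s)) ^ 2 with hk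
  set w : ℝ → ℝ := fun s => s ^ (2 : ℝ) * (1 - s) ^ (-(29 / 50) : ℝ) with hw
  have hmk : Measurable (Function.uncurry k) := by
    simp only [hk, Function.uncurry_def]
    fun_prop
  have hmw : Measurable w := by
    simp only [hw]
    fun_prop
  have hmb : Measurable bb := by
    unfold bb
    fun_prop
  have hw0 : ∀ s ∈ Ioo (0 : ℝ) 1, 0 ≤ w s := by
    intro s hs
    have h1 : 0 < 1 - s := by linarith [hs.2]
    have h2 := hs.1
    simp only [hw]
    positivity
  have hpt : ∀ x ∈ Ioi (0 : ℝ), ∀ s ∈ Ioo (0 : ℝ) 1,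
      ENNReal.ofReal (DD (-(1 / 2)) (21 / 50) x s) ≤
        ENNReal.ofReal c * (ENNReal.ofReal (w s) * ENNReal.ofReal (k x s)) := by
    intro x hx s hs
    rw [hD x s hx hs.1 hs.2, ← ENNReal.ofReal_mul (hw0 s hs), ← ENNReal.ofReal_mul hc0]
  calc ∫⁻ x in Ioi (0 : ℝ), ∫⁻ s in Ioo (0 : ℝ) 1, ENNReal.ofReal (DD (-(1 / 2)) (21 / 50) x s)
      ≤ ∫⁻ x in Ioi (0 : ℝ), ∫⁻ s in Ioo (0 : ℝ) 1,
        ENNReal.ofReal c * (ENNReal.ofReal (w s) * ENNReal.ofReal (k x s)) :=
        setLIntegral_mono' measurableSet_Ioi fun x hx =>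
          setLIntegral_mono' measurableSet_Ioo fun s hs => hpt x hx s hs
    _ = ∫⁻ s in Ioo (0 : ℝ) 1, ∫⁻ x in Ioi (0 : ℝ),
        ENNReal.ofReal c * (ENNReal.ofReal (w s) * ENNReal.ofReal (k x s)) := by
        apply lintegral_lintegral_swap
        apply Measurable.aemeasurable
        exact measurable_const.mul ((hmw.comp measurable_snd).ennreal_ofReal.mul hmk.ennreal_ofReal)
    _ ≤ ∫⁻ s in Ioo (0 : ℝ) 1, ENNReal.ofReal (c * (4 / 9)) * ENNReal.ofReal (w s * bb s) := by
        refine setLIntegral_mono' measurableSet_Ioo fun s hs => ?_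
        have hms : Measurable (fun x => ENNReal.ofReal (k x s)) :=
          (hmk.comp (measurable_id.prodMk measurable_const)).ennreal_ofReal
        have e1 : ∫⁻ x in Ioi (0 : ℝ),
            ENNReal.ofReal c * (ENNReal.ofReal (w s) * ENNReal.ofReal (k x s)) =
            ENNReal.ofReal c * (ENNReal.ofReal (w s) *
              ∫⁻ x in Ioi (0 : ℝ), ENNReal.ofReal (k x s)) := by
          rw [← mul_assoc, ← lintegral_const_mul _ hms]
          simp only [mul_assoc]
        rw [e1]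
        have a1 := hI s hs.1 hs.2
        calc ENNReal.ofReal c * (ENNReal.ofReal (w s) *
              ∫⁻ x in Ioi (0 : ℝ), ENNReal.ofReal (k x s))
            ≤ ENNReal.ofReal c * (ENNReal.ofReal (w s) * ENNReal.ofReal (4 / 9 * bb s)) := by
              gcongr
          _ = ENNReal.ofReal (c * (4 / 9)) * ENNReal.ofReal (w s * bb s) := by
              rw [ENNReal.ofReal_mul (by norm_num : (0 : ℝ) ≤ 4 / 9), ENNReal.ofReal_mul hc0,
                ENNReal.ofReal_mul (hw0 s hs)]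
              ring
    _ = ENNReal.ofReal (c * (4 / 9)) * ∫⁻ s in Ioo (0 : ℝ) 1, ENNReal.ofReal (w s * bb s) :=
        lintegral_const_mul _ (hmw.mul hmb).ennreal_ofReal
    _ ≤ ENNReal.ofReal (c * (4 / 9)) * ENNReal.ofReal 22 := by
        gcongr
    _ = ENNReal.ofReal (c * (4 / 9) * 22) := by
        rw [← ENNReal.ofReal_mul (by positivity)]
    _ < 1 := by
        rw [ENNReal.ofReal_lt_one, hc]
        have h1 := Real.pi_gt_d2
        have h2 : 88 / 9 < Real.pi ^ 2 := by nlinarith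
        have h3 : 0 < Real.pi ^ 2 := by positivity
        rw [show 1 / Real.pi ^ 2 * (4 / 9) * 22 = (88 / 9) / Real.pi ^ 2 by ring, div_lt_one h3]
        exact h2

end Pool.Agent.H64.CJ
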