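import Pool.Agent.H64.CJ.Stm

set_option autoImplicit false

/-! # CJ-G (helper61) -/

namespace Pool.Agent.H64.CJ

open Metric Set Filter Topology MeasureTheory
open scoped ENNReal

theorem g : S_G := by
  intro hGA hGB x hx
  set y : ℝ := 1 + x with hy
  have hy0 : 0 < y := by rw [hy]; linarith
  set w : ℝ := y⁻¹ with hw
  have hw0 : 0 < w := inv_pos.2 hy0
  have hw1 : w ≤ 1 := inv_le_one_of_one_le₀ (by rw [hy]; linarith)
  have hyw : y * w = 1 := mul_inv_cancel₀ hy0.ne'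
  have hxw : x * w = 1 - w := by
    have : x = y - 1 := by rw [hy]; ring
    rw [this, sub_mul, hyw, one_mul]
  set u : ℝ := √(1 - w) with hu
  have hu0 : 0 ≤ u := Real.sqrt_nonneg _
  have hu2 : u ^ 2 = 1 - w := Real.sq_sqrt (by linarith)
  have hu1 : u ≤ 1 := by
    nlinarith
  -- the powers with exponent `3 / 2`
  have hu3 : (1 - w) ^ (3 / 2 : ℝ) = u ^ 3 := by
    rw [hu, Real.sqrt_eq_rpow, ← Real.rpow_natCast, ← Real.rpow_mul (by linarith)]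
    norm_num
  have hx32 : x ^ (3 / 2 : ℝ) = y ^ (3 / 2 : ℝ) * u ^ 3 := by
    have hxy : x = y * (1 - w) := by rw [mul_sub, hyw, mul_one, hy]; ring
    rw [← hu3, ← Real.mul_rpow hy0.le (by linarith), ← hxy]
  have hy3 : (y ^ (3 / 2 : ℝ)) ^ 2 = y ^ 3 := by
    rw [← Real.rpow_natCast, ← Real.rpow_mul hy0.le, ← Real.rpow_natCast y 3]
    norm_num
  have hdiff : (y ^ (3 / 2 : ℝ) - x ^ (3 / 2 : ℝ)) ^ 2 = y ^ 3 * (1 - u ^ 3) ^ 2 := by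
    rw [hx32, ← hy3]
    ring
  -- the inequality GA
  have h1 : 9 / 4 * w ^ 2 ≤ (1 + pp w) * (1 - u ^ 3) ^ 2 := by
    have h2 := hGA u hu0 hu1
    have h3 : 1 - u ^ 2 = w := by rw [hu2]; ring
    rw [h3] at h2
    have h4 := mul_le_mul_of_nonneg_right h2 (sq_nonneg (1 - u))
    have h5 : 9 / 4 * (1 + u) ^ 2 * (1 - u) ^ 2 = 9 / 4 * w ^ 2 := by
      rw [← h3]; ring
    have h6 : (1 + pp w) * (1 + u + u ^ 2) ^ 2 * (1 - u) ^ 2 = (1 + pp w) * (1 - u ^ 3) ^ 2 := by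
      ring
    rw [h5, h6] at h4
    exact h4
  have hwp : 0 < w ^ (21 / 50 : ℝ) := Real.rpow_pos_of_pos hw0 _
  have h2 : 9 / 4 * w ^ 2 * w ^ (21 / 50 : ℝ) ≤
      (w ^ (21 / 50 : ℝ) + 11 / 100 * w + 57 / 50 * w ^ 2) * (1 - u ^ 3) ^ 2 := by
    calc 9 / 4 * w ^ 2 * w ^ (21 / 50 : ℝ) ≤ (1 + pp w) * (1 - u ^ 3) ^ 2 * w ^ (21 / 50 : ℝ) :=
          mul_le_mul_of_nonneg_right h1 hwp.le
      _ = (w ^ (21 / 50 : ℝ) + pp w * w ^ (21 / 50 : ℝ)) * (1 - u ^ 3) ^ 2 := by ring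
      _ ≤ (w ^ (21 / 50 : ℝ) + (11 / 100 * w + 57 / 50 * w ^ 2)) * (1 - u ^ 3) ^ 2 := by
          apply mul_le_mul_of_nonneg_right _ (sq_nonneg _)
          have := hGB w hw0 hw1
          linarith
      _ = _ := by ring
  have e1 : y ^ (-(21 / 50) : ℝ) = w ^ (21 / 50 : ℝ) := by
    rw [hw, Real.rpow_neg hy0.le, Real.inv_rpow hy0.le]
  have e2 : y ^ (-1 : ℝ) = w := by rw [Real.rpow_neg_one]
  have e3 : y ^ (-2 : ℝ) = w ^ 2 := by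
    rw [hw, Real.rpow_neg hy0.le, inv_pow]
    norm_num
  have e4 : y ^ (29 / 50 : ℝ) = y ^ 3 * (w ^ 2 * w ^ (21 / 50 : ℝ)) := by
    rw [← e3, ← e1, ← Real.rpow_natCast, ← Real.rpow_add hy0, ← Real.rpow_add hy0]
    norm_num
  rw [e1, e2, e3, hdiff, e4]
  have h3 : 0 < y ^ 3 := by positivity
  calc y ^ 3 * (w ^ 2 * w ^ (21 / 50 : ℝ)) = 4 / 9 * y ^ 3 * (9 / 4 * w ^ 2 * w ^ (21 / 50 : ℝ)) := by
        ring
    _ ≤ 4 / 9 * y ^ 3 * ((w ^ (21 / 50 : ℝ) + 11 / 100 * w + 57 / 50 * w ^ 2) * (1 - u ^ 3) ^ 2) :=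
        mul_le_mul_of_nonneg_left h2 (by positivity)
    _ = _ := by ring

end Pool.Agent.H64.CJ
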