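import Pool.Agent.H64.CJ.Stm

set_option autoImplicit false

namespace Pool.Agent.H64.CJ

/-- CJ-GA (helper19) -/
theorem ga : S_GA := by
  intro u h0 h1
  have hv : 0 ≤ 1 - u := by linarith
  have key : (1 + pp (1 - u ^ 2)) * (1 + u + u ^ 2) ^ 2 - 9 / 4 * (1 + u) ^ 2 =
      u ^ 2 * (1 - u) ^ 2 * (5 / 3 * (1 - u) ^ 8 + 31 / 2 * (u * (1 - u) ^ 7) +
        733 / 12 * (u ^ 2 * (1 - u) ^ 6) + 392 / 3 * (u ^ 3 * (1 - u) ^ 5) +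
        481 / 3 * (u ^ 4 * (1 - u) ^ 4) + 108 * (u ^ 5 * (1 - u) ^ 3) +
        135 / 4 * (u ^ 6 * (1 - u) ^ 2) + 9 / 2 * (u ^ 7 * (1 - u)) + 9 / 4 * u ^ 8) := by
    unfold pp
    ring
  have h2 : 0 ≤ u ^ 2 * (1 - u) ^ 2 * (5 / 3 * (1 - u) ^ 8 + 31 / 2 * (u * (1 - u) ^ 7) +
        733 / 12 * (u ^ 2 * (1 - u) ^ 6) + 392 / 3 * (u ^ 3 * (1 - u) ^ 5) +
        481 / 3 * (u ^ 4 * (1 - u) ^ 4) + 108 * (u ^ 5 * (1 - u) ^ 3) +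
        135 / 4 * (u ^ 6 * (1 - u) ^ 2) + 9 / 2 * (u ^ 7 * (1 - u)) + 9 / 4 * u ^ 8) := by
    positivity
  linarith

end Pool.Agent.H64.CJ
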