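import Pool.Agent.H64.CJ.Stm

set_option autoImplicit false

namespace Pool.Agent.H64.CJ

lemma GB_tan {t : ℝ} (ht : 0 ≤ t) : t ^ (21 / 50 : ℝ) ≤ 29 / 50 + 21 / 50 * t := by
  have h := rpow_one_add_le_one_add_mul_self (s := t - 1) (p := (21 / 50 : ℝ)) (by linarith)
    (by norm_num) (by norm_num)
  rw [add_sub_cancel] at h
  linarith

lemma GB_c : (9 / 100 : ℝ) ^ (21 / 50 : ℝ) ≤ 3638 / 10000 := by
  have h1 : (9 / 100 : ℝ) ^ (21 : ℕ) ≤ (3638 / 10000 : ℝ) ^ (50 : ℕ) := by norm_num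
  have h2 : ((9 / 100 : ℝ) ^ (21 : ℕ)) ^ (1 / 50 : ℝ) ≤ ((3638 / 10000 : ℝ) ^ (50 : ℕ)) ^ (1 / 50 : ℝ) :=
    Real.rpow_le_rpow (by positivity) h1 (by norm_num)
  rw [← Real.rpow_natCast, ← Real.rpow_natCast, ← Real.rpow_mul (by norm_num),
    ← Real.rpow_mul (by norm_num)] at h2
  norm_num at h2 ⊢
  exact h2

/-- CJ-GB (helper19) -/
theorem gb : S_GB := by
  intro w h0 h1
  have key : (1 / 2 + w / 3 + 5 / 12 * w ^ 3) * w ^ (21 / 50 : ℝ) ≤ 11 / 100 + 57 / 50 * w := by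
    have hP : 0 ≤ 1 / 2 + w / 3 + 5 / 12 * w ^ 3 := by positivity
    rcases le_total (3 / 10) w with h | h
    · have h2 := mul_le_mul_of_nonneg_left (GB_tan h0.le) hP
      refine h2.trans ?_
      have e : 11 / 100 + 57 / 50 * w - (1 / 2 + w / 3 + 5 / 12 * w ^ 3) * (29 / 50 + 21 / 50 * w) =
          (1 - w) * (-9 / 50 + 167 / 300 * w + 5 / 12 * w ^ 2 + 7 / 40 * w ^ 3) := by ring
      have e2 : 0 ≤ -9 / 50 + 167 / 300 * w + 5 / 12 * w ^ 2 + 7 / 40 * w ^ 3 := by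
        have h3 : (9 / 100 : ℝ) ≤ w ^ 2 := by nlinarith
        have h4 : 0 ≤ w ^ 3 := by positivity
        linarith
      have e3 := mul_nonneg (sub_nonneg.2 h1) e2
      linarith
    · have hw : w ^ (21 / 50 : ℝ) ≤ 3638 / 10000 * (29 / 50 + 21 / 50 * (w * (100 / 9))) := by
        have e : w ^ (21 / 50 : ℝ) = (9 / 100 : ℝ) ^ (21 / 50 : ℝ) * (w * (100 / 9)) ^ (21 / 50 : ℝ) := by
          rw [← Real.mul_rpow (by norm_num) (by positivity)]
          congr 1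
          ring
        rw [e]
        exact mul_le_mul GB_c (GB_tan (by positivity)) (by positivity) (by norm_num)
      have h2 := mul_le_mul_of_nonneg_left hw hP
      refine h2.trans ?_
      have h3 : w ^ 2 ≤ 3 / 10 * w := by nlinarith
      have h4 : w ^ 3 ≤ 9 / 100 * w := by nlinarith
      have h5 : w ^ 4 ≤ 27 / 1000 * w := by nlinarith
      nlinarith
  have e : pp w * w ^ (21 / 50 : ℝ) = w * ((1 / 2 + w / 3 + 5 / 12 * w ^ 3) * w ^ (21 / 50 : ℝ)) := by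
    unfold pp
    ring
  rw [e]
  have := mul_le_mul_of_nonneg_left key h0.le
  linarith

end Pool.Agent.H64.CJ
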