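import Pool.Agent.H64.CJ.Stm

set_option autoImplicit false

/-! # CJ-IN (helper96): the inner integral -/

namespace Pool.Agent.H64.CJ

open Metric Set Filter Topology MeasureTheory
open scoped ENNReal
open Pool.Agent.H64.CX

theorem inn : S_IN := by
  intro hGA hGB hG hD1 hLA hLB s h0 h1
  have hG' := hG hGA hGB
  -- the three integrals
  set K : ℝ → ℝ := fun x => 1 / (s + x) + 1 / (1 + x - s) with hK
  have hA := hLA (21 / 50) s (by norm_num) h0 h1
  have hB := hLB 0 s le_rfl h0 h1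
  have hD := hD1 s h0 h1
  set b : ℝ := Real.log (1 / s) + Real.log (1 / (1 - s)) + 3 / 2 + 4 / 3 * (s * (1 - s)) with hb
  have hB' : ∫⁻ x in Ioi (0 : ℝ), ENNReal.ofReal (x * (1 + x) ^ (-1 : ℝ) * (K x) ^ 2) ≤
      ENNReal.ofReal b := by
    rw [add_zero] at hB
    exact hB
  have hl1 : 0 ≤ Real.log (1 / s) := Real.log_nonneg (by rw [le_div_iff₀ h0]; linarith)
  have hl2 : 0 ≤ Real.log (1 / (1 - s)) :=
    Real.log_nonneg (by rw [le_div_iff₀ (by linarith)]; linarith)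
  have hlog4 : Real.log 4 ≤ Real.log (1 / s) + Real.log (1 / (1 - s)) := by
    rw [← Real.log_mul (by positivity) (by
      have : 0 < 1 - s := by linarith
      positivity)]
    refine Real.log_le_log (by norm_num) ?_
    have h2 : 0 < 1 - s := by linarith
    rw [div_mul_div_comm, le_div_iff₀ (mul_pos h0 h2)]
    nlinarith [sq_nonneg (2 * s - 1)]
  have hlog4' : (1.3 : ℝ) ≤ Real.log 4 := by
    have h3 : Real.log 4 = 2 * Real.log 2 := by
      rw [show (4 : ℝ) = 2 ^ 2 by norm_num, Real.log_pow]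
      norm_num
    have := Real.log_two_gt_d9
    rw [h3]
    linarith
  have hss : 0 ≤ s * (1 - s) := mul_nonneg h0.le (by linarith)
  have hb181 : 181 / 100 ≤ b := by
    rw [hb]
    linarith
  have hL2 : ∫⁻ x in Ioi (0 : ℝ), ENNReal.ofReal (x * (1 + x) ^ (-2 : ℝ) * (K x) ^ 2) ≤
      ENNReal.ofReal (b - 181 / 100) := by
    have h2 : (∫⁻ x in Ioi (0 : ℝ), ENNReal.ofReal (x * (1 + x) ^ (-2 : ℝ) * (K x) ^ 2)) +
        ENNReal.ofReal (181 / 100) ≤ ENNReal.ofReal b := hD.trans hB'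
    rw [ENNReal.ofReal_sub _ (by norm_num)]
    exact ENNReal.le_sub_of_add_le_right ENNReal.ofReal_ne_top h2
  -- the pointwise bound
  have hpt : ∀ x ∈ Ioi (0 : ℝ), ENNReal.ofReal (x * (1 + x) ^ (29 / 50 : ℝ) /
      ((1 + x) ^ (3 / 2 : ℝ) - x ^ (3 / 2 : ℝ)) ^ 2 * (K x) ^ 2) ≤
      ENNReal.ofReal (4 / 9) * ENNReal.ofReal (x * (1 + x) ^ (-(21 / 50) : ℝ) * (K x) ^ 2) +
      (ENNReal.ofReal (4 / 9 * (11 / 100)) * ENNReal.ofReal (x * (1 + x) ^ (-1 : ℝ) * (K x) ^ 2) +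
      ENNReal.ofReal (4 / 9 * (57 / 50)) * ENNReal.ofReal (x * (1 + x) ^ (-2 : ℝ) * (K x) ^ 2)) := by
    intro x hx
    have hx0 : (0 : ℝ) < x := hx
    have a3 : 0 < 1 + x := by linarith
    have hDpos : 0 < (1 + x) ^ (3 / 2 : ℝ) - x ^ (3 / 2 : ℝ) :=
      sub_pos.2 (Real.rpow_lt_rpow hx0.le (by linarith) (by norm_num))
    have hg := hG' x hx0
    have p1 : 0 < (1 + x) ^ (-(21 / 50) : ℝ) := Real.rpow_pos_of_pos a3 _
    have p2 : 0 < (1 + x) ^ (-1 : ℝ) := Real.rpow_pos_of_pos a3 _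
    have p3 : 0 < (1 + x) ^ (-2 : ℝ) := Real.rpow_pos_of_pos a3 _
    rw [← ENNReal.ofReal_mul (by norm_num), ← ENNReal.ofReal_mul (by norm_num),
      ← ENNReal.ofReal_mul (by norm_num), ← ENNReal.ofReal_add (by positivity) (by positivity),
      ← ENNReal.ofReal_add (by positivity) (by positivity)]
    refine ENNReal.ofReal_le_ofReal ?_
    have h5 : (1 + x) ^ (29 / 50 : ℝ) / ((1 + x) ^ (3 / 2 : ℝ) - x ^ (3 / 2 : ℝ)) ^ 2 ≤
        4 / 9 * ((1 + x) ^ (-(21 / 50) : ℝ) + 11 / 100 * (1 + x) ^ (-1 : ℝ) +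
          57 / 50 * (1 + x) ^ (-2 : ℝ)) := by
      rw [div_le_iff₀ (by positivity)]
      exact hg
    have h6 := mul_le_mul_of_nonneg_left h5 (show 0 ≤ x * (K x) ^ 2 by positivity)
    calc x * (1 + x) ^ (29 / 50 : ℝ) / ((1 + x) ^ (3 / 2 : ℝ) - x ^ (3 / 2 : ℝ)) ^ 2 * (K x) ^ 2 =
        x * (K x) ^ 2 * ((1 + x) ^ (29 / 50 : ℝ) / ((1 + x) ^ (3 / 2 : ℝ) - x ^ (3 / 2 : ℝ)) ^ 2) := by
          ring
      _ ≤ _ := h6
      _ = _ := by ring
  have m1 : Measurable fun x : ℝ => ENNReal.ofReal (x * (1 + x) ^ (-(21 / 50) : ℝ) * (K x) ^ 2) := by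
    rw [hK]
    fun_prop
  have m2 : Measurable fun x : ℝ => ENNReal.ofReal (x * (1 + x) ^ (-1 : ℝ) * (K x) ^ 2) := by
    rw [hK]
    fun_prop
  have m3 : Measurable fun x : ℝ => ENNReal.ofReal (x * (1 + x) ^ (-2 : ℝ) * (K x) ^ 2) := by
    rw [hK]
    fun_prop
  refine (setLIntegral_mono' measurableSet_Ioi hpt).trans ?_
  rw [lintegral_add_left (m1.const_mul _), lintegral_add_left (m2.const_mul _),
    lintegral_const_mul _ m1, lintegral_const_mul _ m2, lintegral_const_mul _ m3]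
  have hmx1 : 0 ≤ max 0 (Real.log (1 / s) - 2) := le_max_left _ _
  have hmx2 : 0 ≤ max 0 (Real.log (1 / (1 - s)) - 2) := le_max_left _ _
  have hb0 : 0 ≤ b := by linarith
  calc _ ≤ ENNReal.ofReal (4 / 9) * ENNReal.ofReal (4 / (21 / 50) + max 0 (Real.log (1 / s) - 2) +
        max 0 (Real.log (1 / (1 - s)) - 2)) + (ENNReal.ofReal (4 / 9 * (11 / 100)) * ENNReal.ofReal b +
        ENNReal.ofReal (4 / 9 * (57 / 50)) * ENNReal.ofReal (b - 181 / 100)) := by
        gcongr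
    _ = ENNReal.ofReal (4 / 9 * (4 / (21 / 50) + max 0 (Real.log (1 / s) - 2) +
        max 0 (Real.log (1 / (1 - s)) - 2)) + (4 / 9 * (11 / 100) * b +
        4 / 9 * (57 / 50) * (b - 181 / 100))) := by
        rw [← ENNReal.ofReal_mul (by norm_num), ← ENNReal.ofReal_mul (by norm_num),
          ← ENNReal.ofReal_mul (by norm_num), ← ENNReal.ofReal_add (by positivity)
            (mul_nonneg (by norm_num) (by linarith)),
          ← ENNReal.ofReal_add (by positivity)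
            (add_nonneg (by positivity) (mul_nonneg (by norm_num) (by linarith)))]
    _ ≤ ENNReal.ofReal (4 / 9 * bb s) := by
        refine ENNReal.ofReal_le_ofReal ?_
        unfold bb
        rw [hb]
        linarith

end Pool.Agent.H64.CJ
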