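import Pool.Agent.H64.CJ.Stm
import Pool.Agent.H64.CX.LCD

set_option autoImplicit false

/-! # CJ-S0: two Beta integrals -/

namespace Pool.Agent.H64.CJ

open Metric Set Filter Topology MeasureTheory
open scoped ENNReal
open Pool.Agent.H64.CX

theorem s0 : S_S0 := by
  constructor
  · have c1 := LCD.JP_cont (q := 21 / 50) (by norm_num)
    have c2 := LCD.JP_cont (q := 21 / 50 + 1) (by norm_num)
    have c3 := LCD.JP_cont (q := 21 / 50 + 2) (by norm_num)
    have hform : ∀ t : ℝ, 0 < t → t ^ ((21 / 50 : ℝ) - 1) - 2 * t ^ ((21 / 50 : ℝ) + 1 - 1) +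
        t ^ ((21 / 50 : ℝ) + 2 - 1) = t ^ ((21 / 50 : ℝ) - 1) * (1 - t) ^ 2 := by
      intro t ht
      rw [LCD.pw1 ht, LCD.pw2 ht]
      ring
    have h := LCD.lintR (f := fun s => s ^ (2 : ℝ) * (1 - s) ^ (-(29 / 50) : ℝ))
      (K := fun t => LCD.JP (21 / 50) t - 2 * LCD.JP (21 / 50 + 1) t + LCD.JP (21 / 50 + 2) t)
      (K' := fun t => t ^ ((21 / 50 : ℝ) - 1) - 2 * t ^ ((21 / 50 : ℝ) + 1 - 1) +
        t ^ ((21 / 50 : ℝ) + 2 - 1)) (c := 1) zero_le_one
      (by fun_prop) ?_ ?_ ?_ ?_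
    · refine h.trans (ENNReal.ofReal_le_ofReal ?_)
      simp only [LCD.JP_one, LCD.JP_zero (show (0 : ℝ) < 21 / 50 by norm_num),
        LCD.JP_zero (show (0 : ℝ) < 21 / 50 + 1 by norm_num),
        LCD.JP_zero (show (0 : ℝ) < 21 / 50 + 2 by norm_num)]
      norm_num
    · intro t ht
      have d1 := LCD.JP_deriv (q := 21 / 50) (by norm_num) ht.1
      have d2 := LCD.JP_deriv (q := 21 / 50 + 1) (by norm_num) ht.1
      have d3 := LCD.JP_deriv (q := 21 / 50 + 2) (by norm_num) ht.1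
      exact (d1.sub (d2.const_mul 2)).add d3
    · intro t ht
      rw [hform t ht.1]
      exact mul_nonneg (Real.rpow_nonneg ht.1.le _) (sq_nonneg _)
    · intro s hs _
      have ht0 : 0 < 1 - s := by linarith [hs.2]
      rw [hform _ ht0, Real.rpow_two]
      have e : (21 / 50 : ℝ) - 1 = -(29 / 50) := by norm_num
      rw [e]
      refine le_of_eq ?_
      ring
    · intro s hs h3
      linarith [hs.1]
  · have c1 := LCD.JP_cont (q := 71 / 50) (by norm_num)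
    have c2 := LCD.JP_cont (q := 71 / 50 + 1) (by norm_num)
    have c3 := LCD.JP_cont (q := 71 / 50 + 2) (by norm_num)
    have c4 := LCD.JP_cont (q := 71 / 50 + 3) (by norm_num)
    have hform : ∀ t : ℝ, 0 < t → t ^ ((71 / 50 : ℝ) - 1) - 3 * t ^ ((71 / 50 : ℝ) + 1 - 1) +
        3 * t ^ ((71 / 50 : ℝ) + 2 - 1) - t ^ ((71 / 50 : ℝ) + 3 - 1) =
        t ^ (-(29 / 50) : ℝ) * t * (1 - t) ^ 3 := by
      intro t ht
      have e1 : t ^ ((71 / 50 : ℝ) - 1) = t ^ (-(29 / 50) : ℝ) * t := by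
        rw [show (71 / 50 : ℝ) - 1 = -(29 / 50) + 1 by norm_num, Real.rpow_add_one ht.ne']
      have e2 : t ^ ((71 / 50 : ℝ) + 1 - 1) = t ^ (-(29 / 50) : ℝ) * t * t := by
        rw [show (71 / 50 : ℝ) + 1 - 1 = (71 / 50 - 1) + 1 by norm_num, Real.rpow_add_one ht.ne', e1]
      have e3 : t ^ ((71 / 50 : ℝ) + 2 - 1) = t ^ (-(29 / 50) : ℝ) * t * t * t := by
        rw [show (71 / 50 : ℝ) + 2 - 1 = (71 / 50 + 1 - 1) + 1 by norm_num, Real.rpow_add_one ht.ne', e2]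
      have e4 : t ^ ((71 / 50 : ℝ) + 3 - 1) = t ^ (-(29 / 50) : ℝ) * t * t * t * t := by
        rw [show (71 / 50 : ℝ) + 3 - 1 = (71 / 50 + 2 - 1) + 1 by norm_num, Real.rpow_add_one ht.ne', e3]
      rw [e1, e2, e3, e4]
      ring
    have h := LCD.lintR (f := fun s => s ^ (2 : ℝ) * (1 - s) ^ (-(29 / 50) : ℝ) * (s * (1 - s)))
      (K := fun t => LCD.JP (71 / 50) t - 3 * LCD.JP (71 / 50 + 1) t + 3 * LCD.JP (71 / 50 + 2) t -
        LCD.JP (71 / 50 + 3) t)
      (K' := fun t => t ^ ((71 / 50 : ℝ) - 1) - 3 * t ^ ((71 / 50 : ℝ) + 1 - 1) +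
        3 * t ^ ((71 / 50 : ℝ) + 2 - 1) - t ^ ((71 / 50 : ℝ) + 3 - 1)) (c := 1) zero_le_one
      (by fun_prop) ?_ ?_ ?_ ?_
    · refine h.trans (ENNReal.ofReal_le_ofReal ?_)
      simp only [LCD.JP_one, LCD.JP_zero (show (0 : ℝ) < 71 / 50 by norm_num),
        LCD.JP_zero (show (0 : ℝ) < 71 / 50 + 1 by norm_num),
        LCD.JP_zero (show (0 : ℝ) < 71 / 50 + 2 by norm_num),
        LCD.JP_zero (show (0 : ℝ) < 71 / 50 + 3 by norm_num)]
      norm_num
    · intro t ht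
      have d1 := LCD.JP_deriv (q := 71 / 50) (by norm_num) ht.1
      have d2 := LCD.JP_deriv (q := 71 / 50 + 1) (by norm_num) ht.1
      have d3 := LCD.JP_deriv (q := 71 / 50 + 2) (by norm_num) ht.1
      have d4 := LCD.JP_deriv (q := 71 / 50 + 3) (by norm_num) ht.1
      exact ((d1.sub (d2.const_mul 3)).add (d3.const_mul 3)).sub d4
    · intro t ht
      rw [hform t ht.1]
      exact mul_nonneg (mul_nonneg (Real.rpow_nonneg ht.1.le _) ht.1.le)
        (pow_nonneg (by linarith [ht.2]) 3)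
    · intro s hs _
      have ht0 : 0 < 1 - s := by linarith [hs.2]
      rw [hform _ ht0, Real.rpow_two]
      refine le_of_eq ?_
      ring
    · intro s hs h3
      linarith [hs.1]

end Pool.Agent.H64.CJ
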