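import Pool.Agent.H64.CJ.Stm
import Pool.Agent.H64.CX.LCD

set_option autoImplicit false

/-! # CJ-S1: the logarithm of `1 - s` -/

namespace Pool.Agent.H64.CJ

open Metric Set Filter Topology MeasureTheory
open scoped ENNReal
open Pool.Agent.H64.CX

theorem s1 : S_S1 := by
  have c1 := LCD.LP_cont (q := 21 / 50) (by norm_num)
  have c2 := LCD.LP_cont (q := 21 / 50 + 1) (by norm_num)
  have c3 := LCD.LP_cont (q := 21 / 50 + 2) (by norm_num)
  have hform : ∀ t : ℝ, 0 < t → t ^ ((21 / 50 : ℝ) - 1) * (-Real.log t) -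
      2 * (t ^ ((21 / 50 : ℝ) + 1 - 1) * (-Real.log t)) + t ^ ((21 / 50 : ℝ) + 2 - 1) * (-Real.log t) =
      t ^ ((21 / 50 : ℝ) - 1) * (1 - t) ^ 2 * (-Real.log t) := by
    intro t ht
    rw [LCD.pw1 ht, LCD.pw2 ht]
    ring
  have h := LCD.lintR (f := fun s => s ^ (2 : ℝ) * (1 - s) ^ (-(29 / 50) : ℝ) * Real.log (1 / (1 - s)))
    (K := fun t => LCD.LP (21 / 50) t - 2 * LCD.LP (21 / 50 + 1) t + LCD.LP (21 / 50 + 2) t)
    (K' := fun t => t ^ ((21 / 50 : ℝ) - 1) * (-Real.log t) -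
      2 * (t ^ ((21 / 50 : ℝ) + 1 - 1) * (-Real.log t)) + t ^ ((21 / 50 : ℝ) + 2 - 1) * (-Real.log t))
    (c := 1) zero_le_one (by fun_prop) ?_ ?_ ?_ ?_
  · refine h.trans (ENNReal.ofReal_le_ofReal ?_)
    simp only [LCD.LP_one, LCD.LP_zero (show (0 : ℝ) < 21 / 50 by norm_num),
      LCD.LP_zero (show (0 : ℝ) < 21 / 50 + 1 by norm_num),
      LCD.LP_zero (show (0 : ℝ) < 21 / 50 + 2 by norm_num)]
    norm_num
  · intro t ht
    have d1 := LCD.LP_deriv (q := 21 / 50) (by norm_num) ht.1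
    have d2 := LCD.LP_deriv (q := 21 / 50 + 1) (by norm_num) ht.1
    have d3 := LCD.LP_deriv (q := 21 / 50 + 2) (by norm_num) ht.1
    exact (d1.sub (d2.const_mul 2)).add d3
  · intro t ht
    rw [hform t ht.1]
    have hl := Real.log_nonpos ht.1.le ht.2.le
    exact mul_nonneg (mul_nonneg (Real.rpow_nonneg ht.1.le _) (sq_nonneg _)) (by linarith)
  · intro s hs _
    have ht0 : 0 < 1 - s := by linarith [hs.2]
    rw [hform _ ht0, Real.rpow_two, LCD.log_inv_eq]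
    have e : (21 / 50 : ℝ) - 1 = -(29 / 50) := by norm_num
    rw [e]
    refine le_of_eq ?_
    ring
  · intro s hs h3
    linarith [hs.1]

end Pool.Agent.H64.CJ
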