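import Pool.Agent.H64.CJ.Stm

set_option autoImplicit false

/-! # CJ-S2 (helper96): the logarithm of `s` -/

namespace Pool.Agent.H64.CJ

open Metric Set Filter Topology MeasureTheory
open scoped ENNReal
open Pool.Agent.H64.CX

/-- `log (1/s) ≤ (1 - s²) / (2 s)` -/
lemma S2.log_le (s : ℝ) (h0 : 0 < s) (h1 : s < 1) : Real.log (1 / s) ≤ (1 - s ^ 2) / (2 * s) := by
  have h2 : 0 ≤ Real.log (1 / s) := Real.log_nonneg (by rw [le_div_iff₀ h0]; linarith)
  have h3 : Real.log (1 / s) ≤ Real.sinh (Real.log (1 / s)) := Real.self_le_sinh_iff.2 h2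
  rw [Real.sinh_eq, Real.exp_neg, Real.exp_log (by positivity)] at h3
  refine h3.trans (le_of_eq ?_)
  field_simp

/-- the majorant in the variable `u = 1 - s` -/
noncomputable def S2.g (u : ℝ) : ℝ :=
  u ^ (21 / 50 : ℝ) - 3 / 2 * u ^ (71 / 50 : ℝ) + 1 / 2 * u ^ (121 / 50 : ℝ)

lemma S2.g_eq (u : ℝ) (hu : 0 < u) : S2.g u = (2 - 3 * u + u ^ 2) / 2 * u ^ (21 / 50 : ℝ) := by
  unfold S2.g
  have h1 : u ^ (71 / 50 : ℝ) = u * u ^ (21 / 50 : ℝ) := by
    rw [show (71 / 50 : ℝ) = 1 + 21 / 50 by norm_num, Real.rpow_add hu, Real.rpow_one]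
  have h2 : u ^ (121 / 50 : ℝ) = u ^ 2 * u ^ (21 / 50 : ℝ) := by
    rw [show (121 / 50 : ℝ) = (2 : ℕ) + 21 / 50 by norm_num, Real.rpow_add hu, Real.rpow_natCast]
  rw [h1, h2]
  ring

lemma S2.g_int : ∫ u in (0 : ℝ)..1, S2.g u ≤ 231 / 1000 := by
  unfold S2.g
  have i1 : ∀ r : ℝ, 0 < r → IntervalIntegrable (fun u : ℝ => u ^ r) volume 0 1 := fun r hr =>
    intervalIntegral.intervalIntegrable_rpow (Or.inl hr.le)
  rw [intervalIntegral.integral_add ((i1 _ (by norm_num)).sub ((i1 _ (by norm_num)).const_mul _))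
      ((i1 _ (by norm_num)).const_mul _),
    intervalIntegral.integral_sub (i1 _ (by norm_num)) ((i1 _ (by norm_num)).const_mul _),
    intervalIntegral.integral_const_mul, intervalIntegral.integral_const_mul,
    integral_rpow (Or.inl (by norm_num)), integral_rpow (Or.inl (by norm_num)),
    integral_rpow (Or.inl (by norm_num))]
  rw [Real.one_rpow, Real.one_rpow, Real.one_rpow, Real.zero_rpow (by norm_num),
    Real.zero_rpow (by norm_num), Real.zero_rpow (by norm_num)]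
  norm_num

theorem s2 : S_S2 := by
  unfold S_S2
  have hci : IntervalIntegrable S2.g volume 0 1 := by
    unfold S2.g
    have i1 : ∀ r : ℝ, 0 < r → IntervalIntegrable (fun u : ℝ => u ^ r) volume 0 1 := fun r hr =>
      intervalIntegral.intervalIntegrable_rpow (Or.inl hr.le)
    exact ((i1 _ (by norm_num)).sub ((i1 _ (by norm_num)).const_mul _)).add
      ((i1 _ (by norm_num)).const_mul _)
  have hci2 : IntervalIntegrable (fun s : ℝ => S2.g (1 - s)) volume 0 1 := by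
    have := hci.comp_sub_left 1
    simpa using this.symm
  have hI : IntegrableOn (fun s : ℝ => S2.g (1 - s)) (Ioo 0 1) volume := by
    rw [intervalIntegrable_iff_integrableOn_Ioo_of_le zero_le_one] at hci2
    exact hci2
  have hval : ∫ s in Ioo (0 : ℝ) 1, S2.g (1 - s) ≤ 231 / 1000 := by
    rw [← integral_Ioc_eq_integral_Ioo, ← intervalIntegral.integral_of_le zero_le_one,
      intervalIntegral.integral_comp_sub_left]
    simpa using S2.g_int
  have hpt : ∀ s ∈ Ioo (0 : ℝ) 1, s ^ (2 : ℝ) * (1 - s) ^ (-(29 / 50) : ℝ) * Real.log (1 / s) ≤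
      S2.g (1 - s) := by
    intro s hs
    have h0 : 0 < s := hs.1
    have h1 : 0 < 1 - s := by linarith [hs.2]
    rw [S2.g_eq _ h1]
    have h2 : (1 - s) ^ (21 / 50 : ℝ) = (1 - s) * (1 - s) ^ (-(29 / 50) : ℝ) := by
      rw [show (21 / 50 : ℝ) = 1 + -(29 / 50) by norm_num, Real.rpow_add h1, Real.rpow_one]
    rw [h2, show s ^ (2 : ℝ) = s ^ 2 by exact_mod_cast Real.rpow_natCast s 2]
    have h3 := S2.log_le s h0 hs.2
    have h4 : 0 < (1 - s) ^ (-(29 / 50) : ℝ) := Real.rpow_pos_of_pos h1 _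
    have h5 : s ^ 2 * Real.log (1 / s) ≤ s ^ 2 * ((1 - s ^ 2) / (2 * s)) :=
      mul_le_mul_of_nonneg_left h3 (by positivity)
    have h6 : s ^ 2 * ((1 - s ^ 2) / (2 * s)) = s * (1 - s ^ 2) / 2 := by
      field_simp
    rw [h6] at h5
    have h7 := mul_le_mul_of_nonneg_right h5 h4.le
    nlinarith [h7]
  have hnn : ∀ s ∈ Ioo (0 : ℝ) 1, 0 ≤ S2.g (1 - s) := by
    intro s hs
    have h0 : 0 < s := hs.1
    have h1 : 0 < 1 - s := by linarith [hs.2]
    rw [S2.g_eq _ h1]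
    have h4 : 0 < (1 - s) ^ (21 / 50 : ℝ) := Real.rpow_pos_of_pos h1 _
    have h5 : 0 ≤ 2 - 3 * (1 - s) + (1 - s) ^ 2 := by nlinarith
    positivity
  calc ∫⁻ s in Ioo (0 : ℝ) 1, ENNReal.ofReal (s ^ (2 : ℝ) * (1 - s) ^ (-(29 / 50) : ℝ) *
      Real.log (1 / s)) ≤ ∫⁻ s in Ioo (0 : ℝ) 1, ENNReal.ofReal (S2.g (1 - s)) :=
        setLIntegral_mono' measurableSet_Ioo fun s hs => ENNReal.ofReal_le_ofReal (hpt s hs)
    _ = ENNReal.ofReal (∫ s in Ioo (0 : ℝ) 1, S2.g (1 - s)) := by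
        rw [ofReal_integral_eq_lintegral_ofReal hI]
        exact (ae_restrict_iff' measurableSet_Ioo).2 (Filter.Eventually.of_forall hnn)
    _ ≤ ENNReal.ofReal (231 / 1000) := ENNReal.ofReal_le_ofReal hval

end Pool.Agent.H64.CJ
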