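import Pool.Agent.H64.CJ.Stm
import Pool.Agent.H64.CX.LCD

set_option autoImplicit false

namespace Pool.Agent.H64.CJ

open Metric Set Filter Topology MeasureTheory
open scoped ENNReal
open Pool.Agent.H64.CX Pool.Agent.H64.CX.LCD

namespace S3aux

theorem exp_bd : Real.exp (-(21 / 25)) ≤ 43182 / 100000 := by
  have h1 := Real.sum_le_exp_of_nonneg (x := 21 / 25) (by norm_num) 7
  have h2 : (100000 : ℝ) / 43182 ≤ ∑ i ∈ Finset.range 7, (21 / 25 : ℝ) ^ i / (i.factorial : ℝ) := by
    simp only [Finset.sum_range_succ, Finset.sum_range_zero, Nat.factorial]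
    norm_num
  have h3 := h2.trans h1
  rw [Real.exp_neg, inv_eq_one_div]
  rw [div_le_iff₀ (Real.exp_pos _)]
  rw [div_le_iff₀ (by norm_num)] at h3
  linarith

end S3aux

theorem s3 : S_S3 := by
  unfold S_S3
  set a : ℝ := 21 / 50 with ha
  have ha0 : 0 < a := by rw [ha]; norm_num
  set c : ℝ := Real.exp (-2) with hc
  have hc0 : 0 < c := Real.exp_pos _
  have hlc : Real.log c = -2 := Real.log_exp _
  set K : ℝ → ℝ := fun t => LP a t - 2 * JP a t with hK
  set K' : ℝ → ℝ := fun t => t ^ (a - 1) * (-Real.log t) - 2 * t ^ (a - 1) with hK'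
  have hKc : Continuous K := by
    have c1 := JP_cont ha0
    have c2 := LP_cont ha0
    simp only [hK]
    fun_prop
  have hKd : ∀ t ∈ Ioo (0 : ℝ) c, HasDerivAt K (K' t) t := by
    intro t ht
    exact (LP_deriv ha0 ht.1).sub ((JP_deriv ha0 ht.1).const_mul 2)
  have hform : ∀ t : ℝ, K' t = t ^ (a - 1) * (-Real.log t - 2) := by
    intro t
    simp only [hK']
    ring
  have hnn : ∀ t ∈ Ioo (0 : ℝ) c, 0 ≤ K' t := by
    intro t ht
    rw [hform]
    have h1 := Real.log_lt_log ht.1 ht.2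
    rw [hlc] at h1
    exact mul_nonneg (Real.rpow_nonneg ht.1.le _) (by linarith)
  have hexp : (-(29 / 50) : ℝ) = a - 1 := by rw [ha]; norm_num
  have h := lintR (f := fun s => s ^ (2 : ℝ) * (1 - s) ^ (-(29 / 50) : ℝ) *
    max 0 (Real.log (1 / (1 - s)) - 2)) hc0.le hKc hKd hnn ?_ ?_
  · refine h.trans (ENNReal.ofReal_le_ofReal ?_)
    have h1 : c ^ a = Real.exp (-(21 / 25)) := by
      rw [hc, ← Real.exp_mul, ha]
      norm_num
    have h2 : K c - K 0 = Real.exp (-(21 / 25)) / a ^ 2 := by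
      simp only [hK, LP_zero ha0, JP_zero ha0]
      unfold LP JP
      rw [Real.log_rpow hc0, hlc, h1]
      field_simp
      ring
    rw [h2, div_le_iff₀ (by positivity)]
    have h3 := S3aux.exp_bd
    rw [ha]
    linarith
  · intro s hs h1
    have ht0 : 0 < 1 - s := by linarith [hs.2]
    rw [hform, hexp, log_inv_eq]
    have h2 := Real.log_lt_log ht0 h1
    rw [hlc] at h2
    rw [max_eq_right (by linarith)]
    have h3 : s ^ (2 : ℝ) ≤ 1 := Real.rpow_le_one hs.1.le hs.2.le (by norm_num)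
    have h4 : 0 ≤ (1 - s) ^ (a - 1) * (-Real.log (1 - s) - 2) :=
      mul_nonneg (Real.rpow_nonneg ht0.le _) (by linarith)
    calc s ^ (2 : ℝ) * (1 - s) ^ (a - 1) * (-Real.log (1 - s) - 2) =
        s ^ (2 : ℝ) * ((1 - s) ^ (a - 1) * (-Real.log (1 - s) - 2)) := by ring
      _ ≤ 1 * ((1 - s) ^ (a - 1) * (-Real.log (1 - s) - 2)) := mul_le_mul_of_nonneg_right h3 h4
      _ = _ := one_mul _
  · intro s hs h1
    have h2 := Real.log_le_log hc0 h1
    rw [hlc] at h2
    rw [log_inv_eq, max_eq_left (by linarith), mul_zero]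

end Pool.Agent.H64.CJ
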