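import Pool.Agent.H64.CJ.Stm
import Pool.Agent.H64.CX.LCD

set_option autoImplicit false

namespace Pool.Agent.H64.CJ

open Metric Set Filter Topology MeasureTheory
open scoped ENNReal
open Pool.Agent.H64.CX Pool.Agent.H64.CX.LCD

theorem s4 : S_S4 := by
  unfold S_S4
  set c : ℝ := Real.exp (-2) with hc
  have hc0 : 0 < c := Real.exp_pos _
  have hlc : Real.log c = -2 := Real.log_exp _
  have hc7 : c ≤ 1 / 7 := by
    rw [hc, Real.exp_neg, inv_eq_one_div]
    refine one_div_le_one_div_of_le (by norm_num) ?_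
    have h1 : Real.exp 2 = Real.exp 1 * Real.exp 1 := by rw [← Real.exp_add]; norm_num
    have h2 := Real.exp_one_gt_d9
    rw [h1]
    nlinarith
  have h := lint (f := fun s => s ^ (2 : ℝ) * (1 - s) ^ (-(29 / 50) : ℝ) *
    max 0 (Real.log (1 / s) - 2)) (G := fun s => 7 / 12 * c * s ^ 2) (G' := fun s => 7 / 6 * c * s)
    (a := 0) (b := c) hc0.le (by fun_prop) ?_ ?_ ?_ ?_
  · refine h.trans (ENNReal.ofReal_le_ofReal ?_)
    have h1 : c ^ 3 ≤ (1 / 7) ^ 3 := pow_le_pow_left₀ hc0.le hc7 3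
    nlinarith
  · intro x _
    have h1 := ((hasDerivAt_id x).pow 2).const_mul (7 / 12 * c)
    refine h1.congr_deriv ?_
    simp
    ring
  · intro x hx
    have := hx.1
    positivity
  · intro s hs hs2
    have ht0 : 0 < 1 - s := by linarith [hs.2]
    rw [log_inv_eq]
    have h2 := Real.log_lt_log hs2.1 hs2.2
    rw [hlc] at h2
    rw [max_eq_right (by linarith)]
    have h3 : (1 - s) ^ (-(29 / 50) : ℝ) ≤ 7 / 6 := by
      calc (1 - s) ^ (-(29 / 50) : ℝ) ≤ (1 - s) ^ (-1 : ℝ) :=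
            Real.rpow_le_rpow_of_exponent_ge ht0 (by linarith [hs.1]) (by norm_num)
        _ = (1 - s)⁻¹ := Real.rpow_neg_one _
        _ ≤ (6 / 7 : ℝ)⁻¹ := inv_anti₀ (by norm_num) (by linarith [hs2.2])
        _ = 7 / 6 := by norm_num
    have h4 : s ^ (2 : ℝ) * (-Real.log s - 2) ≤ c * s := by
      have h5 := Real.log_le_sub_one_of_pos (div_pos hc0 hs.1)
      rw [Real.log_div hc0.ne' hs.1.ne', hlc] at h5
      have h6 : -Real.log s - 2 ≤ c / s := by linarith
      have h7 : s ^ (2 : ℝ) = s ^ 2 := by norm_cast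
      rw [h7]
      calc s ^ 2 * (-Real.log s - 2) ≤ s ^ 2 * (c / s) :=
            mul_le_mul_of_nonneg_left h6 (sq_nonneg s)
        _ = c * s := by field_simp [hs.1.ne']
    have h8 : 0 ≤ s ^ (2 : ℝ) * (-Real.log s - 2) :=
      mul_nonneg (Real.rpow_nonneg hs.1.le _) (by linarith)
    calc s ^ (2 : ℝ) * (1 - s) ^ (-(29 / 50) : ℝ) * (-Real.log s - 2) =
        (1 - s) ^ (-(29 / 50) : ℝ) * (s ^ (2 : ℝ) * (-Real.log s - 2)) := by ring
      _ ≤ 7 / 6 * (c * s) := mul_le_mul h3 h4 h8 (by norm_num)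
      _ = _ := by ring
  · intro s hs hs2
    have h1 : c ≤ s := by
      by_contra h3
      exact hs2 ⟨hs.1, not_le.1 h3⟩
    have h2 := Real.log_le_log hc0 h1
    rw [hlc] at h2
    rw [log_inv_eq, max_eq_left (by linarith), mul_zero]

end Pool.Agent.H64.CJ
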