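import Pool.Agent.H64.CJ.Stm

set_option autoImplicit false

/-! # CJ-ST: the outer integral -/

namespace Pool.Agent.H64.CJ

open Metric Set Filter Topology MeasureTheory
open scoped ENNReal

theorem st : S_ST := by
  rintro ⟨h0, h0'⟩ h1 h2 h3 h4
  unfold S_S1 at h1
  unfold S_S2 at h2
  unfold S_S3 at h3
  unfold S_S4 at h4
  have hm : Measurable fun s : ℝ => s ^ (2 : ℝ) * (1 - s) ^ (-(29 / 50) : ℝ) := by fun_prop
  have hl1 : Measurable fun s : ℝ => Real.log (1 / (1 - s)) :=
    Real.measurable_log.comp (by fun_prop)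
  have hl2 : Measurable fun s : ℝ => Real.log (1 / s) :=
    Real.measurable_log.comp (by fun_prop)
  -- the integrand is the sum of the six parts
  have key : ∀ s ∈ Ioo (0 : ℝ) 1, ENNReal.ofReal (s ^ (2 : ℝ) * (1 - s) ^ (-(29 / 50) : ℝ) * bb s) =
      ENNReal.ofReal (93355 / 10000) * ENNReal.ofReal (s ^ (2 : ℝ) * (1 - s) ^ (-(29 / 50) : ℝ)) +
      (ENNReal.ofReal (s ^ (2 : ℝ) * (1 - s) ^ (-(29 / 50) : ℝ) * max 0 (Real.log (1 / s) - 2)) +
      (ENNReal.ofReal (s ^ (2 : ℝ) * (1 - s) ^ (-(29 / 50) : ℝ) * max 0 (Real.log (1 / (1 - s)) - 2)) +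
      (ENNReal.ofReal (5 / 4) * ENNReal.ofReal (s ^ (2 : ℝ) * (1 - s) ^ (-(29 / 50) : ℝ) * Real.log (1 / s)) +
      (ENNReal.ofReal (5 / 4) * ENNReal.ofReal (s ^ (2 : ℝ) * (1 - s) ^ (-(29 / 50) : ℝ) * Real.log (1 / (1 - s))) +
      ENNReal.ofReal (5 / 3) * ENNReal.ofReal (s ^ (2 : ℝ) * (1 - s) ^ (-(29 / 50) : ℝ) * (s * (1 - s))))))) := by
    intro s hs
    obtain ⟨hs0, hs1⟩ := hs
    have hs1' : 0 < 1 - s := by linarith
    have hw : 0 ≤ s ^ (2 : ℝ) * (1 - s) ^ (-(29 / 50) : ℝ) :=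
      mul_nonneg (Real.rpow_nonneg hs0.le _) (Real.rpow_nonneg hs1'.le _)
    have hL2 : 0 ≤ Real.log (1 / s) := Real.log_nonneg (by rw [le_div_iff₀ hs0]; linarith)
    have hL1 : 0 ≤ Real.log (1 / (1 - s)) := Real.log_nonneg (by rw [le_div_iff₀ hs1']; linarith)
    have hss : 0 ≤ s * (1 - s) := mul_nonneg hs0.le hs1'.le
    have hM2 : 0 ≤ max 0 (Real.log (1 / s) - 2) := le_max_left _ _
    have hM1 : 0 ≤ max 0 (Real.log (1 / (1 - s)) - 2) := le_max_left _ _
    rw [← ENNReal.ofReal_mul (by norm_num), ← ENNReal.ofReal_mul (by norm_num), ← ENNReal.ofReal_mul (by norm_num),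
      ← ENNReal.ofReal_mul (by norm_num), ← ENNReal.ofReal_add (by positivity) (by positivity),
      ← ENNReal.ofReal_add (by positivity) (by positivity), ← ENNReal.ofReal_add (by positivity) (by positivity),
      ← ENNReal.ofReal_add (by positivity) (by positivity), ← ENNReal.ofReal_add (by positivity) (by positivity)]
    congr 1
    unfold bb
    ring
  rw [setLIntegral_congr_fun measurableSet_Ioo key]
  rw [lintegral_add_left (by fun_prop), lintegral_add_left (by fun_prop), lintegral_add_left (by fun_prop),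
    lintegral_add_left (by fun_prop), lintegral_add_left (by fun_prop),
    lintegral_const_mul _ (by fun_prop), lintegral_const_mul _ (by fun_prop), lintegral_const_mul _ (by fun_prop),
    lintegral_const_mul _ (by fun_prop)]
  calc _ ≤ ENNReal.ofReal (93355 / 10000) * ENNReal.ofReal (138573 / 100000) + (ENNReal.ofReal (1 / 100) +
        (ENNReal.ofReal (2448 / 1000) + (ENNReal.ofReal (5 / 4) * ENNReal.ofReal (231 / 1000) +
        (ENNReal.ofReal (5 / 4) * ENNReal.ofReal (4848 / 1000) + ENNReal.ofReal (5 / 3) * ENNReal.ofReal (116 / 1000))))) := by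
        gcongr
    _ ≤ ENNReal.ofReal 22 := by
        rw [← ENNReal.ofReal_mul (by norm_num), ← ENNReal.ofReal_mul (by norm_num), ← ENNReal.ofReal_mul (by norm_num),
          ← ENNReal.ofReal_mul (by norm_num), ← ENNReal.ofReal_add (by norm_num) (by norm_num),
          ← ENNReal.ofReal_add (by norm_num) (by norm_num), ← ENNReal.ofReal_add (by norm_num) (by norm_num),
          ← ENNReal.ofReal_add (by norm_num) (by norm_num), ← ENNReal.ofReal_add (by norm_num) (by norm_num)]
        exact ENNReal.ofReal_le_ofReal (by norm_num)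

end Pool.Agent.H64.CJ
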