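import Pool.Agent.H64.CX.StmN

set_option autoImplicit false

/-! # Statements: the first moment of `ψ'` -/

namespace Pool.Agent.H64.CJ

open Metric Set Filter Topology MeasureTheory
open scoped ENNReal
open Pool.Agent.H64.CX

/-- the bound of the factor -/
noncomputable def pp (w : ℝ) : ℝ := w / 2 + w ^ 2 / 3 + 5 / 12 * w ^ 4

/-- CJ-GA: the polynomial inequality -/
def S_GA : Prop :=
  ∀ u : ℝ, 0 ≤ u → u ≤ 1 → 9 / 4 * (1 + u) ^ 2 ≤ (1 + pp (1 - u ^ 2)) * (1 + u + u ^ 2) ^ 2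

/-- CJ-GB: the power -/
def S_GB : Prop :=
  ∀ w : ℝ, 0 < w → w ≤ 1 → pp w * w ^ (21 / 50 : ℝ) ≤ 11 / 100 * w + 57 / 50 * w ^ 2

/-- CJ-G: the bound of the factor in the variable `x` (from CJ-GA, CJ-GB) -/
def S_G : Prop :=
  S_GA → S_GB → ∀ x : ℝ, 0 < x → (1 + x) ^ (29 / 50 : ℝ) ≤
    4 / 9 * ((1 + x) ^ (-(21 / 50) : ℝ) + 11 / 100 * (1 + x) ^ (-1 : ℝ) +
      57 / 50 * (1 + x) ^ (-2 : ℝ)) * ((1 + x) ^ (3 / 2 : ℝ) - x ^ (3 / 2 : ℝ)) ^ 2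

/-- CJ-D1: the difference of the integrals with `(1 + x)⁻¹` and `(1 + x)⁻²` -/
def S_D1 : Prop :=
  ∀ s : ℝ, 0 < s → s < 1 →
    (∫⁻ x in Ioi (0 : ℝ), ENNReal.ofReal (x * (1 + x) ^ (-2 : ℝ) *
        (1 / (s + x) + 1 / (1 + x - s)) ^ 2)) + ENNReal.ofReal (181 / 100) ≤
      ∫⁻ x in Ioi (0 : ℝ), ENNReal.ofReal (x * (1 + x) ^ (-1 : ℝ) *
        (1 / (s + x) + 1 / (1 + x - s)) ^ 2)

/-- the bound of the inner integral -/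
noncomputable def bb (s : ℝ) : ℝ :=
  93355 / 10000 + max 0 (Real.log (1 / s) - 2) + max 0 (Real.log (1 / (1 - s)) - 2) +
    5 / 4 * (Real.log (1 / s) + Real.log (1 / (1 - s))) + 5 / 3 * (s * (1 - s))

/-- CJ-IN: the inner integral (from CJ-GA, CJ-GB, CJ-G, CJ-D1 and the proved CX-LA, CX-LB) -/
def S_IN : Prop :=
  S_GA → S_GB → S_G → S_D1 → S_LA → S_LB → ∀ s : ℝ, 0 < s → s < 1 →
    ∫⁻ x in Ioi (0 : ℝ), ENNReal.ofReal (x * (1 + x) ^ (29 / 50 : ℝ) /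
        ((1 + x) ^ (3 / 2 : ℝ) - x ^ (3 / 2 : ℝ)) ^ 2 * (1 / (s + x) + 1 / (1 + x - s)) ^ 2) ≤
      ENNReal.ofReal (4 / 9 * bb s)

/-- CJ-S0: two Beta integrals -/
def S_S0 : Prop :=
  ∫⁻ s in Ioo (0 : ℝ) 1, ENNReal.ofReal (s ^ (2 : ℝ) * (1 - s) ^ (-(29 / 50) : ℝ)) ≤
      ENNReal.ofReal (138573 / 100000) ∧
  ∫⁻ s in Ioo (0 : ℝ) 1, ENNReal.ofReal (s ^ (2 : ℝ) * (1 - s) ^ (-(29 / 50) : ℝ) *
      (s * (1 - s))) ≤ ENNReal.ofReal (116 / 1000)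

/-- CJ-S1: the logarithm of `1 - s` -/
def S_S1 : Prop :=
  ∫⁻ s in Ioo (0 : ℝ) 1, ENNReal.ofReal (s ^ (2 : ℝ) * (1 - s) ^ (-(29 / 50) : ℝ) *
      Real.log (1 / (1 - s))) ≤ ENNReal.ofReal (4848 / 1000)

/-- CJ-S2: the logarithm of `s` -/
def S_S2 : Prop :=
  ∫⁻ s in Ioo (0 : ℝ) 1, ENNReal.ofReal (s ^ (2 : ℝ) * (1 - s) ^ (-(29 / 50) : ℝ) *
      Real.log (1 / s)) ≤ ENNReal.ofReal (231 / 1000)

/-- CJ-S3: the truncated logarithm of `1 - s` -/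
def S_S3 : Prop :=
  ∫⁻ s in Ioo (0 : ℝ) 1, ENNReal.ofReal (s ^ (2 : ℝ) * (1 - s) ^ (-(29 / 50) : ℝ) *
      max 0 (Real.log (1 / (1 - s)) - 2)) ≤ ENNReal.ofReal (2448 / 1000)

/-- CJ-S4: the truncated logarithm of `s` -/
def S_S4 : Prop :=
  ∫⁻ s in Ioo (0 : ℝ) 1, ENNReal.ofReal (s ^ (2 : ℝ) * (1 - s) ^ (-(29 / 50) : ℝ) *
      max 0 (Real.log (1 / s) - 2)) ≤ ENNReal.ofReal (1 / 100)

/-- CJ-ST: the outer integral (from CJ-S0, ..., CJ-S4) -/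
def S_ST : Prop :=
  S_S0 → S_S1 → S_S2 → S_S3 → S_S4 →
    ∫⁻ s in Ioo (0 : ℝ) 1, ENNReal.ofReal (s ^ (2 : ℝ) * (1 - s) ^ (-(29 / 50) : ℝ) * bb s) ≤
      ENNReal.ofReal 22

/-- CJ-DDR: the limit density for `α = -1/2` -/
def S_DDR : Prop :=
  ∀ x s : ℝ, 0 < x → 0 < s → s < 1 → DD (-(1 / 2)) (21 / 50) x s =
    1 / Real.pi ^ 2 * (s ^ (2 : ℝ) * (1 - s) ^ (-(29 / 50) : ℝ) *
      (x * (1 + x) ^ (29 / 50 : ℝ) / ((1 + x) ^ (3 / 2 : ℝ) - x ^ (3 / 2 : ℝ)) ^ 2 *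
        (1 / (s + x) + 1 / (1 + x - s)) ^ 2))

/-- CJ-FIN: the limit is less than `1` (Tonelli) -/
def S_FIN : Prop :=
  S_DDR →
    (∀ s : ℝ, 0 < s → s < 1 →
      ∫⁻ x in Ioi (0 : ℝ), ENNReal.ofReal (x * (1 + x) ^ (29 / 50 : ℝ) /
          ((1 + x) ^ (3 / 2 : ℝ) - x ^ (3 / 2 : ℝ)) ^ 2 * (1 / (s + x) + 1 / (1 + x - s)) ^ 2) ≤
        ENNReal.ofReal (4 / 9 * bb s)) →
    ∫⁻ s in Ioo (0 : ℝ) 1, ENNReal.ofReal (s ^ (2 : ℝ) * (1 - s) ^ (-(29 / 50) : ℝ) * bb s) ≤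
      ENNReal.ofReal 22 →
    ∫⁻ x in Ioi (0 : ℝ), ∫⁻ s in Ioo (0 : ℝ) 1, ENNReal.ofReal (DD (-(1 / 2)) (21 / 50) x s) < 1

/-- CJ-COEF: the coefficients of the exterior maps from the means of the derivative -/
def S_COEF : Prop :=
  ∀ (ψ : ℂ → ℂ) (A : ℝ), 0 ≤ A → DifferentiableOn ℂ ψ {z : ℂ | 1 < ‖z‖} →
    (∀ R : ℝ, 1 < R → ∫ θ in (0 : ℝ)..(2 * Real.pi),
      ‖deriv ψ ((R : ℂ) * Complex.exp ((θ : ℂ) * Complex.I))‖ ≤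
        A * (R ^ 2 / (R ^ 2 - 1)) ^ (21 / 50 : ℝ)) →
    ∀ n : ℕ, 1 ≤ n → ∀ R : ℝ, 1 < R →
      ‖∫ θ in (0 : ℝ)..(2 * Real.pi), ψ ((R : ℂ) * Complex.exp ((θ : ℂ) * Complex.I)) *
        ((R : ℂ) * Complex.exp ((θ : ℂ) * Complex.I)) ^ n‖ ≤ 8 * A * (n : ℝ) ^ (-(29 / 50) : ℝ)

/-- CJ-DCO: the Taylor coefficients from the means of the derivative -/
def S_DCO : Prop :=
  ∀ (f : ℂ → ℂ) (A : ℝ), 0 ≤ A → DifferentiableOn ℂ f (ball 0 1) →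
    (∀ r : ℝ, 0 < r → r < 1 → ∫ θ in (0 : ℝ)..(2 * Real.pi), ‖deriv f (circleMap 0 r θ)‖ ≤
        A * (1 - r) ^ (-(21 / 50) : ℝ)) →
    ∀ n : ℕ, 1 ≤ n → ‖iteratedDeriv n f 0 / (n.factorial : ℂ)‖ ≤ 8 * A * (n : ℝ) ^ (-(29 / 50) : ℝ)

end Pool.Agent.H64.CJ
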